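import Pool.Agent.MP_2bfd0d_al.Final

/-!
# The Hughes conjecture fails for every prime `p > 3`

For every prime `p > 3` there is a finite `p`-group `G` whose Hughes subgroup `H_p(G)`, the
subgroup generated by all elements of order different from `p`, is neither trivial nor the whole
group and has index different from `p`.

Outline of the proof.
* (`Series`, `TL`, `Rho`) Let `F` be the free group on `a, b` and let `rho` be its representation
  `a ↦ exp A`, `b ↦ exp B` by noncommutative power series.  Noncrossing matchings of `2 n` points
  give functionals on the words of length `2 n` invariant under `SL_2`.
* (`Eval`, `Key`) For such a functional the function `t ↦ lam (rho (x ^ t h))` is a polynomial of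
  degree at most `n`, and its coefficient of degree `n` depends only on finitely many parameters
  of `x` and `h`.
* (`Concrete`, `EvalConcrete`, `Final`) Explicit functionals of weights 4, 6, 8, 8 produce integer
  valued functions `Th4`, `Th6` on `F` which along every `t ↦ x ^ t h` are polynomials of degree 4
  and 6 with leading coefficients `2 det(x, h) ^ 4` and `2 det(x, h) ^ 6`.  Their products give
  such functions in every even degree `p - 1 ≥ 4`.
* (`Reduction`, `Affine`) In degree `p - 1` this yields a function `F → ZMod (p ^ 2)` with
  vanishing sums over `{x ^ t h : t < p}` for all `x` outside the kernel of `F → (ZMod p) ^ 2`, and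
  the module generated by its translates, extended by the image of `F` in its automorphism group,
  is the required group.
-/

/-- For every prime `p > 3` there is a finite `p`-group `G` such that the subgroup generated by
the elements of order different from `p` is nontrivial, proper and of index different from `p`. -/
theorem Pool.Agent.Results.MP_2bfd0d_al.HughesAllPrimes.result :
    ∀ p : ℕ, p.Prime → 3 < p →
      ∃ (G : Type) (_ : Group G), Finite G ∧ IsPGroup p G ∧
        Subgroup.closure {g : G | orderOf g ≠ p} ≠ ⊥ ∧
        Subgroup.closure {g : G | orderOf g ≠ p} ≠ ⊤ ∧
        (Subgroup.closure {g : G | orderOf g ≠ p}).index ≠ p :=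
  fun p hp h3 => Pool.Agent.MP_2bfd0d_al.hughes_fails p hp h3
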